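import Pool.Agent.H13.DEV.Targets

/-! Row EPLE of `n6_modules`: the place of `L` given by a root of `P` in a completion of `K`. -/

set_option autoImplicit false

open Polynomial NumberField IsDedekindDomain Pool.Agent.H32.QC Pool.Agent.H34.N6
  Pool.Agent.H13.DEV

namespace Pool.Agent.H79.N6E

theorem pf_PLE (hRTH : T_RTH) (hIPL : T_IPL) : T_PLE := by
  intro k L K _ _ _ _ _ _ _ _ P e w hP hGen e' he'
  obtain ⟨f, hf1, hf2⟩ := hRTH k L P e hP hGen (w.adicCompletion K) (kc k w) e' he'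
  obtain ⟨w₀, h, hc, h1, h2⟩ := hIPL k L K w f hf2
  refine ⟨w₀, h, hc, ?_, fun x => ?_, h2⟩
  · rw [h1, hf1]
  · show h (ic w₀ (algebraMap k L x)) = kc k w x
    rw [h1, hf2]

end Pool.Agent.H79.N6E
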